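import Pool.Agent.W626.AH.Stm

/-!
AH-ONE for project AH (MP_53fefd_al): acylindricity at one scale implies acylindricity.
-/

set_option autoImplicit false

namespace Pool.Agent.W577.AH

open Pool.Agent.W626.AH

section

variable {S : Type} (d : S → S → ℝ)

/-- the basic estimate -/
theorem near_geod (hP : PD d) (hH : H1 d) (x y x' y' a : S) (ε t0 D : ℝ) (hε : 0 < ε)
    (ht0 : t0 = ε + 2) (hD : d x y = D) (hD4 : 4 * t0 + 10 ≤ D) (hx : d x x' ≤ ε) (hy : d y y' ≤ ε)
    (h1 : d x' a = t0) (h2 : d a y' = D - t0) (h3 : d x' y' = D) :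
    d x a + d a y ≤ D + 2 := by
  have nn : ∀ u v, 0 ≤ d u v := by
    intro u v
    have h1 := hP.tri u v u
    rw [hP.self, hP.symm v u] at h1
    linarith
  have e1 := hP.tri x' x a
  rw [hP.symm x' x] at e1
  have hA := hH a x x' y'
  have hB := hH x y' a y
  rw [hP.symm y' y, hP.symm y' a, hD] at hB
  rw [hP.symm a x, h3, hP.symm a x', h1, h2] at hA
  have s1 : D + d x a - t0 - 1 ≤ d x y' := by
    rcases le_total (t0 + d x y') (D - t0 + d x x') with h | h
    · rw [max_eq_right h] at hA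
      linarith
    · rw [max_eq_left h] at hA
      linarith
  rw [h2] at hB
  have n1 := nn a y
  rcases le_total (d x a + d y y') (D + (D - t0)) with h | h
  · rw [max_eq_right h] at hB
    linarith
  · rw [max_eq_left h] at hB
    linarith

/-- two points near the geodesic -/
theorem two_near (hP : PD d) (hH : H1 d) (x y a b : S) (D e : ℝ) (hD : d x y = D)
    (ha : d x a + d a y ≤ D + 2) (hb : d x b + d b y ≤ D + 2) (h1 : d x a - d x b ≤ e)
    (h2 : d x b - d x a ≤ e) : d a b ≤ 3 + e := by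
  have h := hH a b x y
  rw [hD, hP.symm a x, hP.symm b x] at h
  rcases le_total (d x a + d b y) (d a y + d x b) with h' | h'
  · rw [max_eq_right h'] at h
    linarith
  · rw [max_eq_left h'] at h
    linarith

end

theorem main : S_one := by
  intro G S _ _ d hP hH hM hI R M hA ε hε
  obtain ⟨t0, ht0⟩ : ∃ t0 : ℝ, t0 = ε + 2 := ⟨_, rfl⟩
  obtain ⟨K, hK⟩ : ∃ K : ℕ, t0 + ε ≤ K := ⟨_, Nat.le_ceil _⟩
  refine ⟨|R| + 4 * t0 + 10, (K + 1) * M, ?_⟩
  intro x y hxy
  obtain ⟨D, hD⟩ : ∃ D : ℝ, d x y = D := ⟨_, rfl⟩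
  rw [hD] at hxy
  have hR0 : 0 ≤ |R| := abs_nonneg R
  have hR1 : R ≤ |R| := le_abs_self R
  obtain ⟨p, q, hxp, hpy, hxq, hqy, hpq⟩ := hM x y t0 (D - t0) (by linarith) (by linarith)
    (by rw [hD]; linarith)
  rw [hD] at hpy hqy
  have nn : ∀ u v, 0 ≤ d u v := by
    intro u v
    have h1 := hP.tri u v u
    rw [hP.self, hP.symm v u] at h1
    linarith
  -- facts for `g` in the set
  have F1 : ∀ g : G, d x (g • x) ≤ ε → d y (g • y) ≤ ε →
      d x (g • p) + d (g • p) y ≤ D + 2 := by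
    intro g h1 h2
    exact near_geod d hP hH x y (g • x) (g • y) (g • p) ε t0 D hε ht0 hD (by linarith) h1 h2
      (by rw [hI]; exact hxp) (by rw [hI]; exact hpy) (by rw [hI]; exact hD)
  have F2 : ∀ g : G, d x (g • x) ≤ ε → d y (g • y) ≤ ε →
      d x (g • q) + d (g • q) y ≤ D + 2 := by
    intro g h1 h2
    have h := near_geod d hP hH y x (g • y) (g • x) (g • q) ε t0 D hε ht0
      (by rw [hP.symm]; exact hD) (by linarith) h2 h1
      (by rw [hI, hP.symm, hqy]; ring) (by rw [hI, hP.symm]; exact hxq)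
      (by rw [hI, hP.symm]; exact hD)
    rw [hP.symm y (g • q), hP.symm (g • q) x] at h
    linarith
  have F3 : ∀ g : G, d x (g • x) ≤ ε → d y (g • y) ≤ ε →
      d x (g • p) + D - 2 * t0 - 3 ≤ d x (g • q) ∧ d x (g • q) ≤ d x (g • p) + D - 2 * t0 := by
    intro g h1 h2
    have h3 : d (g • p) (g • q) = D - 2 * t0 := by
      rw [hI, hpq]
      ring
    have h4 := hP.tri x (g • p) (g • q)
    refine ⟨?_, by linarith⟩
    have h5 := hH x y (g • p) (g • q)
    rw [hD, h3] at h5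
    have h6 : d x (g • p) ≤ ε + t0 := by
      have := hP.tri x (g • x) (g • p)
      rw [hI, hxp] at this
      linarith
    have h7 : d y (g • q) ≤ ε + t0 := by
      have := hP.tri y (g • y) (g • q)
      rw [hI g y q, hP.symm y q, hqy] at this
      linarith
    have h8 := F1 g h1 h2
    rw [hP.symm (g • p) y] at h8
    rcases le_total (d x (g • p) + d y (g • q)) (d x (g • q) + d y (g • p)) with h' | h'
    · rw [max_eq_right h'] at h5
      linarith
    · rw [max_eq_left h'] at h5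
      linarith
  have F4 : ∀ g g' : G, d x (g • x) ≤ ε → d y (g • y) ≤ ε → d x (g' • x) ≤ ε →
      d y (g' • y) ≤ ε → ⌊d x (g • p)⌋₊ = ⌊d x (g' • p)⌋₊ →
      d p ((g⁻¹ * g') • p) ≤ 7 ∧ d q ((g⁻¹ * g') • q) ≤ 7 := by
    intro g g' h1 h2 h1' h2' hfl
    have f1 := Nat.floor_le (nn x (g • p))
    have f2 := Nat.lt_floor_add_one (d x (g • p))
    have f3 := Nat.floor_le (nn x (g' • p))
    have f4 := Nat.lt_floor_add_one (d x (g' • p))
    rw [hfl] at f1 f2
    have k1 := F3 g h1 h2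
    have k2 := F3 g' h1' h2'
    have m1 := two_near d hP hH x y (g • p) (g' • p) D 1 hD (F1 g h1 h2) (F1 g' h1' h2')
      (by linarith) (by linarith)
    have m2 := two_near d hP hH x y (g • q) (g' • q) D 4 hD (F2 g h1 h2) (F2 g' h1' h2')
      (by linarith [k1.1, k1.2, k2.1, k2.2]) (by linarith [k1.1, k1.2, k2.1, k2.2])
    constructor
    · rw [← hI g, smul_smul, mul_inv_cancel_left]
      linarith
    · rw [← hI g, smul_smul, mul_inv_cancel_left]
      linarith
  -- counting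
  by_contra hcon
  rw [not_le] at hcon
  have hle : (((K + 1) * M + 1 : ℕ) : ℕ∞) ≤ {g : G | d x (g • x) ≤ ε ∧ d y (g • y) ≤ ε}.encard := by
    have := Order.add_one_le_of_lt hcon
    push_cast at this ⊢
    exact this
  obtain ⟨t, hts, ht⟩ := Set.exists_subset_encard_eq hle
  have hfin : t.Finite := Set.finite_of_encard_eq_coe ht
  have hcard : hfin.toFinset.card = (K + 1) * M + 1 := by
    have h1 := hfin.encard_eq_coe_toFinset_card
    rw [ht] at h1
    exact_mod_cast h1.symm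
  have hmaps : ∀ g ∈ hfin.toFinset, ⌊d x (g • p)⌋₊ ∈ Finset.range (K + 1) := by
    intro g hg
    rw [Set.Finite.mem_toFinset] at hg
    obtain ⟨h1, h2⟩ := hts hg
    rw [Finset.mem_range]
    have h6 : d x (g • p) ≤ K := by
      have := hP.tri x (g • x) (g • p)
      rw [hI, hxp] at this
      linarith
    have h7 : ⌊d x (g • p)⌋₊ ≤ K := Nat.floor_le_of_le h6
    omega
  obtain ⟨k, -, hk⟩ := Finset.exists_lt_card_fiber_of_mul_lt_card_of_maps_to (n := M) hmaps
    (by rw [Finset.card_range, hcard]; omega)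
  obtain ⟨g0, hg0⟩ := Finset.card_pos.mp (lt_of_le_of_lt (Nat.zero_le M) hk)
  rw [Finset.mem_filter, Set.Finite.mem_toFinset] at hg0
  obtain ⟨hg0t, hg0k⟩ := hg0
  obtain ⟨a1, a2⟩ := hts hg0t
  have hsub : (fun g : G => g0⁻¹ * g) '' (↑(hfin.toFinset.filter
      (fun g => ⌊d x (g • p)⌋₊ = k)) : Set G) ⊆ {h : G | d p (h • p) ≤ 7 ∧ d q (h • q) ≤ 7} := by
    rintro _ ⟨g, hg, rfl⟩
    rw [Finset.mem_coe, Finset.mem_filter, Set.Finite.mem_toFinset] at hg
    obtain ⟨hgt, hgk⟩ := hg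
    obtain ⟨b1, b2⟩ := hts hgt
    exact F4 g0 g a1 a2 b1 b2 (by rw [hg0k, hgk])
  have h1 := Set.encard_le_encard hsub
  rw [(mul_right_injective g0⁻¹).encard_image, Set.encard_coe_eq_coe_finsetCard] at h1
  have h2 := h1.trans (hA p q (by rw [hpq]; linarith))
  have h3 : (hfin.toFinset.filter (fun g => ⌊d x (g • p)⌋₊ = k)).card ≤ M := by exact_mod_cast h2
  omega

end Pool.Agent.W577.AH

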